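import Mathlib
import Pool.Agent.Helper184.MolsDefs
import Pool.Agent.Helper184.MolsNear
import Pool.Agent.Helper184.MolsDickson

set_option autoImplicit false

namespace Pool.Agent.Results.MP_adbd0c_co.OddSquares

open Pool.Agent.Helper184.Mols

/-- For every odd prime power `q` the maximum `M (q ^ 2)` equals `q ^ 2 - 1`. -/
theorem result : ∀ q : ℕ, IsPrimePow q → Odd q → M (q ^ 2) = q ^ 2 - 1 :=
  fun q hq hodd => M_sq q hq hodd

end Pool.Agent.Results.MP_adbd0c_co.OddSquares
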